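import Pool.Agent.helper26.IM.SpecA

/-!
# im:NXT, freeze one more direction
-/

set_option autoImplicit false

open Finset

namespace Pool.Agent.helper26.IM

open Pool.Agent.RRank Pool.Agent.helper35.MR

theorem NXT_eqn12 {X Y Z K : Type} [Field K] {N q : ℕ} {T : X → Y → Z → K}
    {α : X → Fin N → Fin q → K} {β : Y → Fin N → Fin q → K} {γ : Z → Fin N → Fin q → K}
    (h : Eqn N q T α β γ) : Eqn N q (fun y x z => T x y z) β α γ := by
  intro y x z
  have h1 := h x y z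
  have h2 : ∀ i : Fin N, (∑ s, β y i s * α x i s * γ z i s) = ∑ s, α x i s * β y i s * γ z i s :=
    fun i => Finset.sum_congr rfl fun s _ => by ring
  simp only [h2]
  exact h1

theorem NXT_eqn13 {X Y Z K : Type} [Field K] {N q : ℕ} {T : X → Y → Z → K}
    {α : X → Fin N → Fin q → K} {β : Y → Fin N → Fin q → K} {γ : Z → Fin N → Fin q → K}
    (h : Eqn N q T α β γ) : Eqn N q (fun z y x => T x y z) γ β α := by
  intro z y x
  have h1 := h x y z
  have h2 : ∀ i : Fin N, (∑ s, γ z i s * β y i s * α x i s) = ∑ s, α x i s * β y i s * γ z i s :=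
    fun i => Finset.sum_congr rfl fun s _ => by ring
  simp only [h2]
  exact h1

theorem NXT (hU : UFS_stmt) (hC : CSB_stmt) (hF : FZN_stmt) (hS : STX_stmt) (hW : SWX_stmt) :
    NXT_stmt := by
  intro l fx fy fz h
  obtain ⟨K, hK, hA, X, Y, Z, T, N, q, α, β, γ, h1, h2, h3, h4, h5, h6⟩ := h
  obtain ⟨𝓊, 𝓋, 𝓌, hL⟩ := hU K X Y Z T h1
  by_cases hx : FS1 T 𝓊
  · by_cases hy : FS1 (fun y x z => T x y z) 𝓋
    · by_cases hz : FS1 (fun z y x => T x y z) 𝓌
      · exact (hC K X Y Z T l N q α β γ 𝓊 𝓋 𝓌 h2 h3 hL hx hy hz).elim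
      · right
        right
        refine ⟨fun hfz => hz (hF K Z Y X (fun z y x => T x y z) N q γ β α (NXT_eqn13 h3) (h6 hfz) 𝓌),
          (hW l True fy fx).2 (hS l fy fx K Z Y X (fun z y x => T x y z) N q γ β α 𝓌
            (fun hfull => h2 hfull.swap13) (NXT_eqn13 h3) h5 h4 hz)⟩
    · right
      left
      refine ⟨fun hfy => hy (hF K Y X Z (fun y x z => T x y z) N q β α γ (NXT_eqn12 h3) (h5 hfy) 𝓋),
        (hW l True fx fz).1 (hS l fx fz K Y X Z (fun y x z => T x y z) N q β α γ 𝓋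
          (fun hfull => h2 hfull.swap12) (NXT_eqn12 h3) h4 h6 hy)⟩
  · left
    exact ⟨fun hfx => hx (hF K X Y Z T N q α β γ h3 (h4 hfx) 𝓊),
      hS l fy fz K X Y Z T N q α β γ 𝓊 h2 h3 h5 h6 hx⟩

end Pool.Agent.helper26.IM
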